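import Pool.Agent.N522.LT.Theory

/-!
# `ℓ`-adic cohomology over local fields

`K` is a finite extension of `ℚ_p` with residue field of `q` elements, and `ℓ ≠ p`. The coefficients of all
representations are extended to `ℂ` by a fixed isomorphism of an algebraic closure of `ℚ_ℓ` with `ℂ`.
-/

set_option autoImplicit false

namespace Pool.Agent.N992.WL

open Pool.Agent.N522.LogT

noncomputable section

/-- Cohomology over local fields. -/
structure LocalTheory where
  /-- the number of elements of the residue field of `K` -/
  q : ℕ
  /-- the pairs of a finite totally ramified extension `L` of `K` and a smooth projective scheme `X` over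
  `L`, of pure dimension, such that the inertia group of `L` acts unipotently on the cohomology of `X`;
  for each smooth projective `X` over `K` there is an `L` such that `(L, X_L)` is of this kind -/
  Obj : Type
  /-- the representation `H^m(X)` of the Galois group of `L`, given by a geometric Frobenius `F` and the
  monodromy operator `N`; the operator `s` is the identity -/
  H : Obj → ℕ → Rep
  /-- `Z` is over the same field `L` as `X`, has good reduction, and is of dimension `e` -/
  IsGood : Obj → Obj → ℕ → Prop

variable (T : LocalTheory)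

/-- A representation with unipotent inertia. -/
structure IsUnipotent (q : ℕ) (A : Rep) : Prop where
  finite : FiniteDimensional ℂ A.V
  bijective : Function.Bijective A.F
  /-- `N F = q F N` -/
  monodromy : ∀ x, A.N (A.F x) = (q : ℂ) • A.F (A.N x)
  unipotent : A.s = 1

/-- Each Frobenius eigenvalue of weight `w` on `H^m(X)` occurs on `H^w(Z)` for some `Z` with good
reduction. (It is a Weil `q`-number; some power of it is the `w`-th power of a Weil number of weight
one, hence occurs on `H^w` of an abelian variety over a finite extension of the residue field, by the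
theorem of Honda and Tate, and of a principally polarised one, which lifts to an abelian scheme over the
ring of integers of an unramified extension `L'` of `L`. One regards it as a scheme over `L`.) -/
def WeilNumbers : Prop :=
  ∀ X m α w, (T.H X m).F.HasEigenvalue α → ‖α‖ ^ 2 = (T.q : ℝ) ^ w →
    ∃ Z e, T.IsGood X Z e ∧ (T.H Z w).F.HasEigenvalue α

/-- The Künneth formula for `Y = X × Z`, and Poincaré duality for `Z`: `Hom(H^b(Z), H^m(X))(-e)`, that is
`H^m(X) ⊗ H^(2 e - b)(Z)`, is a direct summand of `H^n(Y)`, `n = m + 2 e - b`. -/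
def Kunneth : Prop :=
  ∀ X Z e, T.IsGood X Z e → ∃ Y, ∀ m b n, n + b = m + 2 * e →
    ∃ p, IsSummand (hom (T.H Z b) (tw ((T.q : ℂ) ^ e) (T.H X m))) (T.H Y n) p

/-- The Künneth formula for `Y = X × E ^ t`, `E` a Tate curve over `L`: the representation
`Hom(Sym ^ t H^1(E), H^m(X))(-t) = H^m(X) ⊗ Sym ^ t H^1(E)` is a direct summand of `H^(m + t)(Y)`. -/
def TateCurve : Prop :=
  ∀ X t, ∃ Y, ∀ m, ∃ p,
    IsSummand (hom (sym T.q t) (tw ((T.q : ℂ) ^ t) (T.H X m))) (T.H Y (m + t)) p

/-- Poincaré duality. -/
def Duality : Prop :=
  ∀ X, ∃ d, (∀ m, 2 * d < m → Subsingleton (T.H X m).V) ∧ ∀ m m', m + m' = 2 * d →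
    IsIso (T.H X m') (hom (T.H X m) (char ((T.q : ℂ) ^ d)))

/-- The properties of `ℓ`-adic cohomology that are used; all of them are known. -/
structure IsLocalTheory : Prop where
  one_lt : 1 < T.q
  rep : ∀ X m, IsUnipotent T.q (T.H X m)
  pure : ∀ X Z e, T.IsGood X Z e → ∀ b, IsPure T.q b (T.H Z b)
  vanish : ∀ X Z e, T.IsGood X Z e → ∀ b, 2 * e < b → Subsingleton (T.H Z b).V
  weil : WeilNumbers T
  kunneth : Kunneth T
  tate : TateCurve T
  duality : Duality T

/-- `H^m(X)(r)^G = 0`, `G` the Galois group of `L`. -/
def NoInvariants (X : T.Obj) (m r : ℕ) : Prop :=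
  ∀ v, Inv (tw ((T.q : ℂ) ^ r)⁻¹ (T.H X m)) v → v = 0

/-- The monodromy-weight conjecture for `H^m(X)`: for all `t` the operator `N ^ t` is an isomorphism
of the part of weight `m + t` onto the part of weight `m - t`, that is, for all `α` of absolute value
`q ^ ((m + t) / 2)` an isomorphism of the generalised eigenspace of `F` for `α` onto that for `α / q ^ t`. -/
def WeightMonodromy (X : T.Obj) (m : ℕ) : Prop :=
  ∀ (t : ℕ) (α : ℂ), ‖α‖ ^ 2 = (T.q : ℝ) ^ (m + t) →
    Set.BijOn ((T.H X m).N ^ t) (gen (T.H X m) α) (gen (T.H X m) (α / (T.q : ℂ) ^ t))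

end

end Pool.Agent.N992.WL
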