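import Pool.Agent.N992.WM.Main
import Pool.Agent.N992.WL.Defs

/-!
# The monodromy-weight conjecture and invariants
-/

set_option autoImplicit false
set_option linter.unusedSectionVars false

namespace Pool.Agent.N992.WL

open Module Pool.Agent.N522 Pool.Agent.N522.LogT

variable {T : LocalTheory} (hT : IsLocalTheory T)

include hT

theorem q_ne0 : (T.q : ℂ) ≠ 0 := by
  have := hT.one_lt
  exact_mod_cast (by omega : T.q ≠ 0)

theorem tw_inv (j : ℕ) {A : Rep} (v : A.V) :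
    Inv (tw ((T.q : ℂ) ^ j)⁻¹ A) v ↔ A.F v = (T.q : ℂ) ^ j • v ∧ A.N v = 0 ∧ A.s v = v := by
  have hq := pow_ne_zero j (q_ne0 hT)
  refine and_congr_left fun _ => ?_
  change ((T.q : ℂ) ^ j)⁻¹ • A.F v = v ↔ A.F v = (T.q : ℂ) ^ j • v
  constructor
  · intro h
    conv_rhs => rw [← h, smul_smul, mul_inv_cancel₀ hq, one_smul]
  · intro h
    rw [h, smul_smul, inv_mul_cancel₀ hq, one_smul]

/-- the hypothesis -/
def Just (T : LocalTheory) : Prop := ∀ X r, 0 < r → NoInvariants T X (2 * r - 1) r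

theorem just_zero (hV : Just T) {X : T.Obj} {m r : ℕ} (hm : m + 1 = 2 * r) (v : (T.H X m).V)
    (h1 : (T.H X m).F v = (T.q : ℂ) ^ r • v) (h2 : (T.H X m).N v = 0) : v = 0 := by
  have hm' : m = 2 * r - 1 := by omega
  subst hm'
  refine hV X r (by omega) v ((tw_inv hT r v).2 ⟨h1, h2, ?_⟩)
  rw [(hT.rep X _).unipotent, End.one_apply]

theorem corr (X Z : T.Obj) (e : ℕ) (hZ : T.IsGood X Z e) : ∃ Y, ∀ m b n, n + b = m + 2 * e →
    ∃ (i : ((T.H Z b).V →ₗ[ℂ] (T.H X m).V) →ₗ[ℂ] (T.H Y n).V)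
      (p : (T.H Y n).V →ₗ[ℂ] ((T.H Z b).V →ₗ[ℂ] (T.H X m).V)),
      (∀ g, p (i g) = g) ∧
      (∀ g g', (∀ z, g' ((T.H Z b).F z) = (T.q : ℂ) ^ e • (T.H X m).F (g z)) →
        (T.H Y n).F (i g) = i g') ∧
      (∀ g, (T.H Y n).N (i g) = i ((T.H X m).N ∘ₗ g)) := by
  obtain ⟨Y, hY⟩ := hT.kunneth X Z e hZ
  refine ⟨Y, fun m b n hn => ?_⟩
  obtain ⟨p, ⟨p1, p2, p3⟩, i, ⟨i1, i2, i3⟩, hpi⟩ := hY m b n hn
  obtain ⟨z1, z2, z3⟩ := hT.pure X Z e hZ b
  refine ⟨i, p, hpi, fun g g' h => ?_, fun g => ?_⟩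
  · exact (i1 g).symm.trans (congrArg i
      (hom_F_eq (T.H Z b) (tw ((T.q : ℂ) ^ e) (T.H X m)) (hT.rep Z b).bijective g g' h))
  · exact (i2 g).symm.trans (congrArg i
      (hom_N' (T.H Z b) (tw ((T.q : ℂ) ^ e) (T.H X m)) z1 g))

theorem powers (X : T.Obj) (t : ℕ) : ∃ Y, ∀ m,
    ∃ (J : ((Fin (t + 1) → ℂ) →ₗ[ℂ] (T.H X m).V) →ₗ[ℂ] (T.H Y (m + t)).V)
      (P : (T.H Y (m + t)).V →ₗ[ℂ] ((Fin (t + 1) → ℂ) →ₗ[ℂ] (T.H X m).V)),
      (∀ f, P (J f) = f) ∧
      (∀ f f', (∀ c, f' (LT.symF T.q t c) = (T.q : ℂ) ^ t • (T.H X m).F (f c)) →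
        (T.H Y (m + t)).F (J f) = J f') ∧
      (∀ f, (T.H Y (m + t)).N (J f) = J ((T.H X m).N ∘ₗ f - f ∘ₗ LT.symN t)) := by
  obtain ⟨Y, hY⟩ := hT.tate X t
  refine ⟨Y, fun m => ?_⟩
  obtain ⟨p, ⟨p1, p2, p3⟩, i, ⟨i1, i2, i3⟩, hpi⟩ := hY m
  refine ⟨i, p, hpi, fun f f' hf => ?_, fun f => ?_⟩
  · exact (i1 f).symm.trans (congrArg i
      (hom_F_eq (sym T.q t) (tw ((T.q : ℂ) ^ t) (T.H X m))
        (sym_bijective (by have := hT.one_lt; omega) t) f f' hf))
  · exact (i2 f).symm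

theorem duality (X : T.Obj) : ∃ d, (∀ m, 2 * d < m → ∀ x : (T.H X m).V, x = 0) ∧
    ∀ m m', m + m' = 2 * d →
      ∃ B : (T.H X m).V →ₗ[ℂ] (T.H X m').V →ₗ[ℂ] ℂ, Function.Bijective B.flip ∧
        (∀ x y, B ((T.H X m).F x) ((T.H X m').F y) = (T.q : ℂ) ^ d * B x y) ∧
        ∀ x y, B ((T.H X m).N x) y = - B x ((T.H X m').N y) := by
  obtain ⟨d, hd, h⟩ := hT.duality X
  refine ⟨d, fun m hm x => ?_, fun m m' hmm => ?_⟩
  · have := hd m hm
    exact Subsingleton.elim _ _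
  · obtain ⟨θ, h1, h2, h3⟩ := h m m' hmm
    let θ' : (T.H X m').V ≃ₗ[ℂ] ((T.H X m).V →ₗ[ℂ] ℂ) := θ
    refine ⟨θ'.toLinearMap.flip, ?_, fun x y => ?_, fun x y => ?_⟩
    · rw [LinearMap.flip_flip]
      exact θ'.bijective
    · exact hom_F (T.H X m) (char ((T.q : ℂ) ^ d)) (hT.rep X m).bijective (θ' y)
        (θ' ((T.H X m').F y)) (h1 y).symm x
    · have h5 : θ' ((T.H X m').N y) x = 0 - θ' y ((T.H X m).N x) :=
        LinearMap.congr_fun (h2 y) x
      change θ' y ((T.H X m).N x) = - θ' ((T.H X m').N y) x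
      rw [h5, zero_sub, neg_neg]

theorem eigen_zero (hV : Just T) {X : T.Obj} {m : ℕ} {x : (T.H X m).V} {β : ℂ}
    (hF : (T.H X m).F x = β • x) (hN : (T.H X m).N x = 0)
    (hβ : ‖β‖ ^ 2 = (T.q : ℝ) ^ (m + 1)) : x = 0 := by
  by_contra hx
  have hev0 : (T.H X m).F.HasEigenvalue β := by
    refine End.hasEigenvalue_of_hasEigenvector (x := x) ⟨?_, hx⟩
    rw [End.mem_eigenspace_iff]
    exact hF
  obtain ⟨Z, e, hZ, hev⟩ := hT.weil X m β (m + 1) hev0 hβ
  have := (hT.rep Z (m + 1)).finite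
  have hb : m + 1 ≤ 2 * e := by
    by_contra h
    have hsub := hT.vanish X Z e hZ (m + 1) (by omega)
    obtain ⟨w, hw⟩ := hev.exists_hasEigenvector
    exact hw.2 (Subsingleton.elim _ _)
  obtain ⟨f, hf0, hf⟩ := WM.exists_eigenfunctional hev
  obtain ⟨Y, hY⟩ := corr hT X Z e hZ
  obtain ⟨I, P, h1, h2, h3⟩ := hY m (m + 1) (2 * e - 1) (by omega)
  have h4 : (T.H Y (2 * e - 1)).F (I (f.smulRight x)) = (T.q : ℂ) ^ e • I (f.smulRight x) := by
    rw [h2 (f.smulRight x) ((T.q : ℂ) ^ e • f.smulRight x), map_smul]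
    intro z
    rw [LinearMap.smul_apply, LinearMap.smulRight_apply, LinearMap.smulRight_apply, map_smul, hF,
      hf z, smul_smul, smul_smul, smul_smul]
    congr 1
    ring
  have h5 : (T.H Y (2 * e - 1)).N (I (f.smulRight x)) = 0 := by
    have h6 : (T.H X m).N ∘ₗ f.smulRight x = 0 := by
      ext z
      rw [LinearMap.comp_apply, LinearMap.smulRight_apply, map_smul, hN, smul_zero,
        LinearMap.zero_apply]
    rw [h3, h6, map_zero]
  have h6 := just_zero hT hV (r := e) (by omega) _ h4 h5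
  have h7 : f.smulRight x = 0 := by rw [← h1 (f.smulRight x), h6, map_zero]
  apply hf0
  ext z
  have h8 := LinearMap.congr_fun h7 z
  rw [LinearMap.smulRight_apply, LinearMap.zero_apply] at h8
  rw [LinearMap.zero_apply]
  exact (smul_eq_zero.1 h8).resolve_right hx

theorem pow_N_F (X : T.Obj) (m : ℕ) (k : ℕ) (x : (T.H X m).V) :
    ((T.H X m).N ^ k) ((T.H X m).F x) = (T.q : ℂ) ^ k • (T.H X m).F (((T.H X m).N ^ k) x) := by
  induction k generalizing x with
  | zero => simp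
  | succ k ih =>
    rw [pow_succ, End.mul_apply, (hT.rep X m).monodromy, map_smul, ih, smul_smul, End.mul_apply,
      ← pow_succ']

theorem eigen_pow_zero (hV : Just T) {X : T.Obj} {m t : ℕ} {x : (T.H X m).V} {α : ℂ}
    (hF : (T.H X m).F x = α • x) (hN : ((T.H X m).N ^ (t + 1)) x = 0)
    (hα : ‖α‖ ^ 2 = (T.q : ℝ) ^ (m + (t + 1))) : x = 0 := by
  have hq0 := q_ne0 hT
  obtain ⟨Y, hY⟩ := powers hT X t
  obtain ⟨J, P, h1, h2, h3⟩ := hY m
  obtain ⟨u, hu⟩ : ∃ u : Fin (t + 1) → (T.H X m).V,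
      ∀ i, u i = ((i : ℕ).factorial : ℂ) • ((T.H X m).N ^ (t - i)) x := ⟨_, fun i => rfl⟩
  have hFu : ∀ i : Fin (t + 1), (T.q : ℂ) ^ t • (T.H X m).F (u i) =
      (α * (T.q : ℂ) ^ (i : ℕ)) • u i := by
    intro i
    have hi : (i : ℕ) ≤ t := Nat.lt_succ_iff.1 i.2
    have h5 := pow_N_F hT X m (t - i) x
    rw [hF, map_smul] at h5
    have h6 : (T.q : ℂ) ^ t = (T.q : ℂ) ^ (i : ℕ) * (T.q : ℂ) ^ (t - (i : ℕ)) := by
      rw [← pow_add]; congr 1; omega
    rw [hu, map_smul, smul_comm ((T.q : ℂ) ^ t), h6, ← smul_smul _ _ ((T.H X m).F _), ← h5,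
      smul_smul ((T.q : ℂ) ^ (i : ℕ)) α, mul_comm α, smul_comm]
  have hNu0 : (T.H X m).N (u 0) = 0 := by
    have h5 : ((T.H X m).N ^ (t + 1)) x = (T.H X m).N (((T.H X m).N ^ t) x) := by
      rw [pow_succ', End.mul_apply]
    rw [hu]
    simp only [Fin.val_zero, Nat.factorial_zero, Nat.cast_one, one_smul, Nat.sub_zero]
    rw [← h5, hN]
  have hNu : ∀ i : Fin t, (T.H X m).N (u i.succ) = (((i : ℕ) : ℂ) + 1) • u i.castSucc := by
    intro i
    rw [hu, hu, map_smul, ← End.mul_apply, ← pow_succ', Fin.val_succ, Fin.val_castSucc,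
      show t - ((i : ℕ) + 1) + 1 = t - i by omega, smul_smul, Nat.factorial_succ]
    push_cast
    rfl
  obtain ⟨f, hf⟩ : ∃ f : (Fin (t + 1) → ℂ) →ₗ[ℂ] (T.H X m).V,
      f = Fintype.linearCombination ℂ u := ⟨_, rfl⟩
  have hfc : ∀ c, f c = ∑ i, c i • u i := fun c => by
    rw [hf]; exact Fintype.linearCombination_apply _ _ _
  have e1 : (T.H Y (m + t)).F (J f) = α • J f := by
    rw [← map_smul]
    refine h2 f (α • f) fun c => ?_
    rw [LinearMap.smul_apply, hfc, hfc, map_sum, Finset.smul_sum, Finset.smul_sum]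
    refine Finset.sum_congr rfl fun i _ => ?_
    have e0 : LT.symF T.q t c i = (T.q : ℂ) ^ (i : ℕ) * c i := rfl
    rw [map_smul, smul_comm ((T.q : ℂ) ^ t), hFu, smul_smul, smul_smul, e0]
    congr 1
    ring
  have e2 : (T.H Y (m + t)).N (J f) = 0 := by
    rw [h3]
    have e0 : (T.H X m).N ∘ₗ f - f ∘ₗ LT.symN t = 0 := by
      rw [sub_eq_zero]
      refine LinearMap.ext fun c => ?_
      rw [LinearMap.comp_apply, LinearMap.comp_apply, hfc, hfc, map_sum, Fin.sum_univ_succ,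
        Fin.sum_univ_castSucc]
      have h0 : (T.H X m).N (c 0 • u 0) = 0 := by
        rw [map_smul, hNu0, smul_zero]
      have hl : LT.symN t c (Fin.last t) • u (Fin.last t) = 0 := by
        have : LT.symN t c (Fin.last t) = 0 := by
          simp [LT.symN]
        rw [this, zero_smul]
      rw [h0, hl, zero_add, add_zero]
      refine Finset.sum_congr rfl fun i _ => ?_
      have h1 : LT.symN t c i.castSucc = (((i : ℕ) : ℂ) + 1) * c i.succ := by
        simp only [LT.symN, LinearMap.coe_mk, AddHom.coe_mk, Fin.val_castSucc]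
        rw [dif_pos (by omega)]
        rfl
      rw [h1, map_smul, hNu, smul_smul, mul_comm]
    rw [e0, map_zero]
  have e4 := eigen_zero hT hV e1 e2 (by rw [hα]; congr 1)
  have e5 : f = 0 := by rw [← h1 f, e4, map_zero]
  have e6 : u (Fin.last t) = 0 := by
    have h5 := LinearMap.congr_fun e5 (Pi.single (Fin.last t) 1)
    rw [hf, Fintype.linearCombination_apply_single, one_smul, LinearMap.zero_apply] at h5
    exact h5
  rw [hu] at e6
  simp only [Fin.val_last, Nat.sub_self, pow_zero, End.one_apply] at e6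
  exact (smul_eq_zero.1 e6).resolve_left (by exact_mod_cast t.factorial_ne_zero)

theorem propC_of_just (hV : Just T) (X : T.Obj) (m : ℕ) :
    WM.PropC (T.H X m).F (T.H X m).N T.q m := by
  intro t α x hα hx h0
  cases t with
  | zero => simpa using h0
  | succ t =>
    rw [End.mem_maxGenEigenspace] at hx
    obtain ⟨k, hk⟩ := hx
    induction k generalizing x with
    | zero => simpa using hk
    | succ k ih =>
      have h1 : ((T.H X m).F - α • (1 : End ℂ (T.H X m).V)) x = 0 := by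
        apply ih
        · rw [LinearMap.sub_apply, LinearMap.smul_apply, End.one_apply, map_sub, map_smul,
            pow_N_F hT, h0, map_zero, smul_zero, smul_zero, sub_zero]
        · rw [← End.mul_apply, ← pow_succ]
          exact hk
      rw [LinearMap.sub_apply, LinearMap.smul_apply, End.one_apply, sub_eq_zero] at h1
      exact eigen_pow_zero hT hV h1 h0 hα

theorem mw_of_just (hV : Just T) (X : T.Obj) (m : ℕ) : WeightMonodromy T X m := by
  have := (hT.rep X m).finite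
  obtain ⟨d, hd0, hd⟩ := duality hT X
  have hA : LT.PropA (T.H X m).F (T.H X m).N T.q m := by
    by_cases hm : m ≤ 2 * d
    · obtain ⟨B, hB1, hB2, hB3⟩ := hd m (2 * d - m) (by omega)
      have := (hT.rep X (2 * d - m)).finite
      exact WM.propA_of_dual hT.one_lt (by omega) B hB1 hB2 hB3 (hT.rep X _).monodromy
        (propC_of_just hT hV X _)
    · intro t α x _ _ _
      exact ⟨0, by rw [map_zero, hd0 m (by omega) x]⟩
  exact LT.mw_of_AB hT.one_lt (hT.rep X m).bijective.1 (hT.rep X m).monodromy hA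
    (WM.propB_of_propC (propC_of_just hT hV X m))

/-- The vanishing from weight-monodromy. -/
theorem vanishing_of_mw (hMW : ∀ X m, WeightMonodromy T X m) {X : T.Obj} {m r : ℕ}
    (hm : m < 2 * r) (v : (T.H X m).V) (h1 : (T.H X m).F v = (T.q : ℂ) ^ r • v)
    (h2 : (T.H X m).N v = 0) : v = 0 := by
  have hn : ‖(T.q : ℂ) ^ r‖ ^ 2 = (T.q : ℝ) ^ (m + (2 * r - m)) := by
    rw [norm_pow, Complex.norm_natCast, ← pow_mul]
    congr 1
    omega
  have h3 := (hMW X m (2 * r - m) _ hn).injOn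
  refine h3 ?_ (Submodule.zero_mem _) ?_
  · change v ∈ (T.H X m).F.maxGenEigenspace ((T.q : ℂ) ^ r)
    rw [End.mem_maxGenEigenspace]
    refine ⟨1, ?_⟩
    rw [pow_one, LinearMap.sub_apply, LinearMap.smul_apply, End.one_apply, h1, sub_self]
  · rw [map_zero, show 2 * r - m = (2 * r - m - 1) + 1 by omega, pow_succ, End.mul_apply, h2,
      map_zero]

/-- **The theorem.** -/
theorem main :
    ((∀ X r, 0 < r → NoInvariants T X (2 * r - 1) r) ↔ ∀ X m, WeightMonodromy T X m) ∧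
      ((∀ X m r, m < 2 * r → NoInvariants T X m r) ↔ ∀ X m, WeightMonodromy T X m) := by
  have hJ : (∀ X r, 0 < r → NoInvariants T X (2 * r - 1) r) →
      ∀ X m, WeightMonodromy T X m := fun h X m => mw_of_just hT h X m
  have hM : (∀ X m, WeightMonodromy T X m) → ∀ X m r, m < 2 * r → NoInvariants T X m r := by
    intro h X m r hm v hv
    obtain ⟨h1, h2, _⟩ := (tw_inv hT r (A := T.H X m) v).1 hv
    exact vanishing_of_mw hT h hm v h1 h2
  exact ⟨⟨hJ, fun h X r hr => hM h X _ r (by omega)⟩,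
    ⟨fun h => hJ fun X r hr => h X _ r (by omega), hM⟩⟩

end Pool.Agent.N992.WL
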